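import Mathlib
import Pool.Agent.H381R2.HR.Glue
import Pool.Agent.H305R2.MertensE
import Pool.Agent.N732.GS.Exp

set_option autoImplicit false
set_option linter.unusedSectionVars false

/-! # Rough integers up to `g` when the sieving level is `g ^ (1/2 - o(1))` -/

open Filter Set
open scoped Topology

namespace Pool.Agent.N732.GV

/-- the primes up to `z` -/
def PZ (z : ℕ) : Finset ℕ := (Finset.Icc 1 z).filter Nat.Prime

lemma mem_PZ {z p : ℕ} : p ∈ PZ z ↔ p.Prime ∧ p ≤ z := by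
  unfold PZ
  rw [Finset.mem_filter, Finset.mem_Icc]
  constructor
  · rintro ⟨h1, h2⟩; exact ⟨h2, h1.2⟩
  · rintro ⟨h1, h2⟩; exact ⟨⟨h1.one_le, h2⟩, h1⟩

lemma PZ_card (z : ℕ) : (PZ z).card = Nat.primeCounting z := by
  unfold PZ
  rw [Nat.primeCounting, Nat.primeCounting', Nat.count_eq_card_filter_range]
  congr 1
  ext p
  simp only [Finset.mem_filter, Finset.mem_Icc, Finset.mem_range]
  constructor
  · rintro ⟨h1, h2⟩; exact ⟨by omega, h2⟩
  · rintro ⟨h1, h2⟩; exact ⟨⟨h2.one_le, by omega⟩, h2⟩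

/-- the integers `1 ≤ r ≤ g` without prime factor `≤ z` -/
def rough (z g : ℕ) : Finset ℕ := (Finset.Icc 1 g).filter (fun r => ∀ p ∈ PZ z, ¬ p ∣ r)

lemma rough_sub {z g : ℕ} (hz : 1 ≤ z) (h : g < z * z * z) :
    rough z g ⊆ {1} ∪ PZ g ∪ ((PZ (Nat.sqrt g)).filter (z < ·)).biUnion (fun p => (PZ (g / p)).image (p * ·)) := by
  classical
  intro r hr
  unfold rough at hr
  rw [Finset.mem_filter, Finset.mem_Icc] at hr
  obtain ⟨⟨h1, h2⟩, h3⟩ := hr
  have hfac : ∀ q : ℕ, q.Prime → q ∣ r → z < q := by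
    intro q hq hqr
    by_contra hcon
    exact h3 q (mem_PZ.2 ⟨hq, by omega⟩) hqr
  rw [Finset.mem_union, Finset.mem_union, Finset.mem_singleton]
  by_cases hr1 : r = 1
  · exact Or.inl (Or.inl hr1)
  by_cases hrp : r.Prime
  · exact Or.inl (Or.inr (mem_PZ.2 ⟨hrp, h2⟩))
  right
  set p := r.minFac with hp
  have hpp : p.Prime := Nat.minFac_prime hr1
  have hpr : p ∣ r := Nat.minFac_dvd r
  obtain ⟨m, hm⟩ := hpr
  have hzp : z < p := hfac p hpp (Nat.minFac_dvd r)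
  have hp2 : p * p ≤ r := by
    have := Nat.minFac_sq_le_self (by omega : 0 < r) hrp
    rw [← hp, sq] at this
    exact this
  have hp0 : 0 < p := hpp.pos
  have hm1 : p ≤ m := by
    by_contra hcon
    push Not at hcon
    have : p * m < p * p := Nat.mul_lt_mul_of_pos_left hcon hp0
    omega
  have hmp : m.Prime := by
    by_contra hmn
    have hm2 : m ≠ 1 := by
      have := hpp.two_le
      omega
    set q := m.minFac with hq
    have hqp : q.Prime := Nat.minFac_prime hm2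
    have hqm : q ∣ m := Nat.minFac_dvd m
    have hzq : z < q := hfac q hqp (hqm.trans ⟨p, by rw [hm]; ring⟩)
    have hq2 : q * q ≤ m := by
      have := Nat.minFac_sq_le_self (by omega : 0 < m) hmn
      rw [← hq, sq] at this
      exact this
    have h4 : z * (z * z) ≤ p * (q * q) := Nat.mul_le_mul hzp.le (Nat.mul_le_mul hzq.le hzq.le)
    have h5 : p * (q * q) ≤ p * m := Nat.mul_le_mul_left _ hq2
    have h6 : z * z * z = z * (z * z) := by ring
    omega
  rw [Finset.mem_biUnion]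
  refine ⟨p, Finset.mem_filter.2 ⟨mem_PZ.2 ⟨hpp, Nat.le_sqrt.2 (hp2.trans h2)⟩, hzp⟩, ?_⟩
  rw [Finset.mem_image]
  refine ⟨m, mem_PZ.2 ⟨hmp, ?_⟩, hm.symm⟩
  rw [Nat.le_div_iff_mul_le hp0, mul_comm, ← hm]
  exact h2

lemma rough_card {z g : ℕ} (hz : 1 ≤ z) (h : g < z * z * z) :
    (rough z g).card ≤ 1 + Nat.primeCounting g + ∑ p ∈ (PZ (Nat.sqrt g)).filter (z < ·), Nat.primeCounting (g / p) := by
  classical
  refine (Finset.card_le_card (rough_sub hz h)).trans ?_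
  refine (Finset.card_union_le _ _).trans (add_le_add ?_ ?_)
  · refine (Finset.card_union_le _ _).trans ?_
    rw [Finset.card_singleton, PZ_card]
  · refine Finset.card_biUnion_le.trans (Finset.sum_le_sum fun p _ => ?_)
    refine Finset.card_image_le.trans ?_
    rw [PZ_card]

/-- the Mertens product -/
noncomputable def MM (z : ℕ) : ℝ := ∏ p ∈ PZ z, (1 - (p : ℝ)⁻¹)⁻¹

lemma fac_ge {p : ℕ} (hp : p.Prime) : 1 + (p : ℝ)⁻¹ ≤ (1 - (p : ℝ)⁻¹)⁻¹ := by
  have hp2 : (2 : ℝ) ≤ p := by exact_mod_cast hp.two_le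
  have h1 : (p : ℝ)⁻¹ ≤ 1 / 2 := by
    rw [one_div]
    exact inv_anti₀ (by norm_num) hp2
  have h0 : 0 < (p : ℝ)⁻¹ := by positivity
  generalize (p : ℝ)⁻¹ = x at h0 h1 ⊢
  rw [← one_div, le_div_iff₀ (by linarith)]
  nlinarith

lemma MM_pos (z : ℕ) : 0 < MM z := Finset.prod_pos fun p hp => by
  have := fac_ge (mem_PZ.1 hp).1
  have h0 : 0 ≤ (p : ℝ)⁻¹ := by positivity
  linarith

lemma one_add_sum_le {s : Finset ℕ} {a : ℕ → ℝ} (ha : ∀ i ∈ s, 0 ≤ a i) : 1 + ∑ i ∈ s, a i ≤ ∏ i ∈ s, (1 + a i) := by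
  classical
  induction s using Finset.induction_on with
  | empty => simp
  | insert i s hi ih =>
    rw [Finset.sum_insert hi, Finset.prod_insert hi]
    have h1 := ih fun j hj => ha j (Finset.mem_insert_of_mem hj)
    have h2 := ha i (Finset.mem_insert_self _ _)
    have h3 : 0 ≤ ∑ j ∈ s, a j := Finset.sum_nonneg fun j hj => ha j (Finset.mem_insert_of_mem hj)
    nlinarith [mul_nonneg h2 h3, mul_le_mul_of_nonneg_left h1 (show 0 ≤ 1 + a i by linarith)]

lemma sum_inv_le {z Y : ℕ} (h : z ≤ Y) : ∑ p ∈ (PZ Y).filter (z < ·), (p : ℝ)⁻¹ ≤ MM Y / MM z - 1 := by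
  classical
  have hsub : PZ z ⊆ PZ Y := by
    intro p hp
    rw [mem_PZ] at hp ⊢
    exact ⟨hp.1, by omega⟩
  have hsd : PZ Y \ PZ z = (PZ Y).filter (z < ·) := by
    ext p
    rw [Finset.mem_sdiff, Finset.mem_filter, mem_PZ, mem_PZ]
    constructor
    · rintro ⟨h1, h2⟩
      exact ⟨h1, by by_contra hc; exact h2 ⟨h1.1, by omega⟩⟩
    · rintro ⟨h1, h2⟩
      exact ⟨h1, fun h3 => by omega⟩
  have h1 : MM Y = (∏ p ∈ (PZ Y).filter (z < ·), (1 - (p : ℝ)⁻¹)⁻¹) * MM z := by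
    unfold MM
    rw [← Finset.prod_sdiff hsub, hsd]
  have h2 : 1 + ∑ p ∈ (PZ Y).filter (z < ·), (p : ℝ)⁻¹ ≤ ∏ p ∈ (PZ Y).filter (z < ·), (1 - (p : ℝ)⁻¹)⁻¹ := by
    refine (one_add_sum_le fun i _ => by positivity).trans ?_
    apply Finset.prod_le_prod
    · intro i _; positivity
    · intro i hi
      exact fac_ge (mem_PZ.1 (Finset.mem_filter.1 hi).1).1
  rw [h1, mul_div_assoc, div_self (MM_pos z).ne', mul_one]
  linarith

lemma MM_asymp : Tendsto (fun N : ℕ => MM N / Real.log N) atTop (𝓝 (Real.exp Real.eulerMascheroniConstant)) :=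
  Pool.Agent.H305R2.mertens_three

/-- Chebyshev and the prime number theorem -/
lemma pi_bounds : ∃ K : ℝ, 0 < K ∧ ∀ x : ℝ, 2 ≤ x → (Nat.primeCounting ⌊x⌋₊ : ℝ) ≤ x / Real.log x + K * (x / Real.log x ^ 2) ∧
    (Nat.primeCounting ⌊x⌋₊ : ℝ) ≤ K * (x / Real.log x) := by
  obtain ⟨C1, hC1, hpnt⟩ := Pool.Agent.H381R2.HR.Asm.pnt2
  refine ⟨1 + 2 * C1, by linarith, fun x hx => ?_⟩
  have h1 := (abs_le.1 (hpnt x hx)).2
  have hx0 : 0 < x := by linarith
  have hl2 : (1 : ℝ) / 2 ≤ Real.log x := by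
    have : Real.log 2 ≤ Real.log x := Real.log_le_log (by norm_num) hx
    linarith [Real.log_two_gt_d9]
  have hl0 : 0 < Real.log x := by linarith
  have h2 : 0 ≤ x / Real.log x ^ 2 := by positivity
  have h3 : x / Real.log x ^ 2 ≤ 2 * (x / Real.log x) := by
    rw [sq, ← div_div, div_le_iff₀ hl0]
    have : 0 ≤ x / Real.log x := by positivity
    nlinarith
  constructor
  · nlinarith
  · nlinarith

end Pool.Agent.N732.GV
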