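import Mathlib
import Pool.Agent.N732.GV.Cand

set_option autoImplicit false
set_option linter.unusedSectionVars false

/-! # The number of candidates in the critical windows -/

open Filter Set
open scoped Topology

namespace Pool.Agent.N732.GV

open Pool.Agent.R528.RM (tendsto_log)

lemma tendsto_nat_of_log {a : ℕ → ℕ} {c : ℝ} (hc : 0 < c) (h : Tendsto (fun j : ℕ => Real.log (a j) / Real.log j) atTop (𝓝 c)) :
    Tendsto (fun j : ℕ => Real.log (a j)) atTop atTop ∧ Tendsto a atTop atTop := by
  have h1 : Tendsto (fun j : ℕ => Real.log (a j)) atTop atTop := by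
    have h2 := h.pos_mul_atTop hc tendsto_log
    refine h2.congr' ?_
    filter_upwards [tendsto_log.eventually_gt_atTop 0] with j hj
    field_simp
  refine ⟨h1, ?_⟩
  rw [tendsto_atTop]
  intro b
  filter_upwards [h1.eventually_gt_atTop (Real.log b), h1.eventually_gt_atTop 0] with j hj hj0
  by_contra hcon
  push Not at hcon
  have ha : 0 < a j := by
    rcases Nat.eq_zero_or_pos (a j) with h0 | h0
    · rw [h0] at hj0
      simp at hj0
    · exact h0
  have h3 : Real.log (a j) ≤ Real.log b := Real.log_le_log (by exact_mod_cast ha) (by exact_mod_cast hcon.le)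
  linarith

lemma log_sqrt {g : ℕ → ℕ} (h : Tendsto (fun j : ℕ => Real.log (g j) / Real.log j) atTop (𝓝 2)) :
    Tendsto (fun j : ℕ => Real.log (Nat.sqrt (g j)) / Real.log j) atTop (𝓝 1) := by
  have h0 := tendsto_nat_of_log (by norm_num) h
  have hup : Tendsto (fun j : ℕ => 1 / 2 * (Real.log (g j) / Real.log j)) atTop (𝓝 1) := by
    have := h.const_mul (1 / 2 : ℝ)
    norm_num at this
    convert this using 2
  have hlow : Tendsto (fun j : ℕ => 1 / 2 * (Real.log (g j) / Real.log j) - Real.log 2 / Real.log j) atTop (𝓝 1) := by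
    have h1 : Tendsto (fun j : ℕ => Real.log 2 / Real.log j) atTop (𝓝 0) := tendsto_const_nhds.div_atTop tendsto_log
    have := hup.sub h1
    rwa [sub_zero] at this
  refine tendsto_of_tendsto_of_tendsto_of_le_of_le' hlow hup ?_ ?_
  · filter_upwards [tendsto_log.eventually_gt_atTop 0, h0.2.eventually_ge_atTop 1] with j hj hg
    have h1 : 1 ≤ Nat.sqrt (g j) := Nat.le_sqrt.2 (by omega)
    have h2 : g j < (Nat.sqrt (g j) + 1) * (Nat.sqrt (g j) + 1) := Nat.lt_succ_sqrt _
    have h3 : g j ≤ (2 * Nat.sqrt (g j)) ^ 2 := by nlinarith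
    have h4 : (g j : ℝ) ≤ (2 * (Nat.sqrt (g j) : ℝ)) ^ 2 := by exact_mod_cast h3
    have hs : (1 : ℝ) ≤ Nat.sqrt (g j) := by exact_mod_cast h1
    have h5 := Real.log_le_log (by exact_mod_cast hg) h4
    rw [Real.log_pow, Real.log_mul (by norm_num) (by linarith)] at h5
    push_cast at h5
    rw [mul_div_assoc', ← sub_div]
    apply div_le_div_of_nonneg_right _ hj.le
    linarith
  · filter_upwards [tendsto_log.eventually_gt_atTop 0, h0.2.eventually_ge_atTop 1] with j hj hg
    have h1 : 1 ≤ Nat.sqrt (g j) := Nat.le_sqrt.2 (by omega)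
    have h2 : Nat.sqrt (g j) * Nat.sqrt (g j) ≤ g j := Nat.sqrt_le _
    have h3 : ((Nat.sqrt (g j) : ℝ)) ^ 2 ≤ g j := by
      rw [sq]
      exact_mod_cast h2
    have hs : (1 : ℝ) ≤ Nat.sqrt (g j) := by exact_mod_cast h1
    have h5 := Real.log_le_log (by positivity) h3
    rw [Real.log_pow] at h5
    push_cast at h5
    rw [mul_div_assoc']
    apply div_le_div_of_nonneg_right _ hj.le
    linarith

lemma MM_comp {a : ℕ → ℕ} {c : ℝ} (hc : 0 < c) (h : Tendsto (fun j : ℕ => Real.log (a j) / Real.log j) atTop (𝓝 c)) :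
    Tendsto (fun j : ℕ => MM (a j) / Real.log j) atTop (𝓝 (Real.exp Real.eulerMascheroniConstant * c)) := by
  have h0 := tendsto_nat_of_log hc h
  have h1 := (MM_asymp.comp h0.2).mul h
  refine h1.congr' ?_
  filter_upwards [h0.1.eventually_gt_atTop 0, tendsto_log.eventually_gt_atTop 0] with j hj hj2
  simp only [Function.comp_apply]
  field_simp

/-- the number of candidates -/
theorem rough_asymp {z g : ℕ → ℕ} (hz : Tendsto (fun j : ℕ => Real.log (z j) / Real.log j) atTop (𝓝 1))
    (hg : Tendsto (fun j : ℕ => Real.log (g j) / Real.log j) atTop (𝓝 2)) {ε : ℝ} (hε : 0 < ε) :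
    ∀ᶠ j : ℕ in atTop, ((rough (z j) (g j)).card : ℝ) ≤ (1 / 2 + ε) * (g j / Real.log j) := by
  obtain ⟨K, hK, hpi⟩ := pi_bounds
  have hz0 := tendsto_nat_of_log one_pos hz
  have hg0 := tendsto_nat_of_log (by norm_num) hg
  have hY := log_sqrt hg
  set E := Real.exp Real.eulerMascheroniConstant with hE
  have hE0 : 0 < E := Real.exp_pos _
  have hMz := MM_comp one_pos hz
  have hMY := MM_comp one_pos hY
  have hratio : Tendsto (fun j : ℕ => MM (Nat.sqrt (g j)) / MM (z j) - 1) atTop (𝓝 0) := by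
    have h1 := hMY.div hMz (by rw [mul_one]; exact hE0.ne')
    rw [div_self (by rw [mul_one]; exact hE0.ne')] at h1
    have h2 := h1.sub_const 1
    rw [sub_self] at h2
    refine h2.congr' ?_
    filter_upwards [tendsto_log.eventually_gt_atTop 0] with j hj
    have := (MM_pos (z j)).ne'
    simp only [Pi.div_apply]
    rw [div_div_div_cancel_right₀ hj.ne']
  have hT : Tendsto (fun j : ℕ => max 0 (MM (Nat.sqrt (g j)) / MM (z j) - 1)) atTop (𝓝 0) := by
    have := (tendsto_const_nhds (x := (0 : ℝ))).max hratio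
    rwa [max_self] at this
  have hlg : Tendsto (fun j : ℕ => Real.log j / Real.log (g j)) atTop (𝓝 (1 / 2)) := by
    have := hg.inv₀ (by norm_num)
    rw [one_div]
    refine this.congr fun j => ?_
    rw [inv_div]
  have hlgg : Tendsto (fun j : ℕ => Real.log (g j) / (g j : ℝ)) atTop (𝓝 0) := by
    have h1 : Tendsto (fun x : ℝ => Real.log x / x) atTop (𝓝 0) := by
      have := Real.isLittleO_log_id_atTop.tendsto_div_nhds_zero
      exact this
    exact h1.comp (tendsto_natCast_atTop_atTop.comp hg0.2)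
  have hf : Tendsto (fun j : ℕ => (Real.log j / Real.log (g j)) * (Real.log (g j) / (g j : ℝ)) +
      (Real.log j / Real.log (g j)) * (1 + K / Real.log (g j) + 2 * K * max 0 (MM (Nat.sqrt (g j)) / MM (z j) - 1))) atTop
      (𝓝 (1 / 2 * 0 + 1 / 2 * (1 + 0 + 2 * K * 0))) := by
    refine (hlg.mul hlgg).add (hlg.mul ((tendsto_const_nhds.add (tendsto_const_nhds.div_atTop hg0.1)).add (hT.const_mul _)))
  have e0 : (1 / 2 * 0 + 1 / 2 * (1 + 0 + 2 * K * 0) : ℝ) = 1 / 2 := by ring
  rw [e0] at hf
  have hz3 : ∀ᶠ j : ℕ in atTop, g j < z j * z j * z j := by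
    have h1 := (hz.eventually (lt_mem_nhds (show (3 / 4 : ℝ) < 1 by norm_num))).and
      (hg.eventually (gt_mem_nhds (show (2 : ℝ) < 9 / 4 by norm_num)))
    filter_upwards [h1, tendsto_log.eventually_gt_atTop 0, hz0.2.eventually_ge_atTop 1, hg0.2.eventually_ge_atTop 1] with j hj hj0 hz1 hg1
    rw [lt_div_iff₀ hj0, div_lt_iff₀ hj0] at hj
    have hz1' : (1 : ℝ) ≤ z j := by exact_mod_cast hz1
    have hg1' : (1 : ℝ) ≤ g j := by exact_mod_cast hg1
    have h2 : Real.log (g j) < Real.log ((z j : ℝ) ^ 3) := by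
      rw [Real.log_pow]
      push_cast
      linarith [hj.1, hj.2]
    have h3 := (Real.log_lt_log_iff (by linarith) (by positivity)).1 h2
    have h4 : (z j : ℝ) ^ 3 = ((z j * z j * z j : ℕ) : ℝ) := by push_cast; ring
    rw [h4] at h3
    exact_mod_cast h3
  filter_upwards [hf.eventually (gt_mem_nhds (show (1 / 2 : ℝ) < 1 / 2 + ε by linarith)), hz3, hz0.2.eventually_ge_atTop 1,
    hg0.2.eventually_ge_atTop 16, tendsto_log.eventually_gt_atTop 0] with j hj hj3 hz1 hg16 hj0
  have hg16' : (16 : ℝ) ≤ g j := by exact_mod_cast hg16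
  set G : ℝ := (g j : ℝ) with hG
  have hG0 : 0 < G := by linarith
  have hlG : 0 < Real.log G := Real.log_pos (by linarith)
  set Tj := max 0 (MM (Nat.sqrt (g j)) / MM (z j) - 1) with hTj
  have hTj0 : 0 ≤ Tj := le_max_left _ _
  have h1 := rough_card hz1 hj3
  have h1' : ((rough (z j) (g j)).card : ℝ) ≤ 1 + Nat.primeCounting (g j) +
      ∑ p ∈ (PZ (Nat.sqrt (g j))).filter (z j < ·), (Nat.primeCounting (g j / p) : ℝ) := by exact_mod_cast h1
  have h2 := (hpi G (by linarith)).1
  rw [hG, Nat.floor_natCast, ← hG] at h2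
  have h3 : ∑ p ∈ (PZ (Nat.sqrt (g j))).filter (z j < ·), (Nat.primeCounting (g j / p) : ℝ) ≤ 2 * K * (G / Real.log G) * Tj := by
    have h4 : ∀ p ∈ (PZ (Nat.sqrt (g j))).filter (z j < ·), (Nat.primeCounting (g j / p) : ℝ) ≤ 2 * K * (G / Real.log G) * (p : ℝ)⁻¹ := by
      intro p hp
      have hp1 := (mem_PZ.1 (Finset.mem_filter.1 hp).1)
      have hp0 : (0 : ℝ) < p := by exact_mod_cast hp1.1.pos
      have hpp : p * p ≤ g j := Nat.le_sqrt.1 hp1.2
      have hpp' : (p : ℝ) * p ≤ G := by rw [hG]; exact_mod_cast hpp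
      have h5 : √G ≤ G / p := by
        rw [le_div_iff₀ hp0]
        have h6 : (p : ℝ) ≤ √G := Real.le_sqrt_of_sq_le (by rw [sq]; exact hpp')
        calc √G * p ≤ √G * √G := mul_le_mul_of_nonneg_left h6 (Real.sqrt_nonneg _)
          _ = G := Real.mul_self_sqrt hG0.le
      have h7 : (4 : ℝ) ≤ √G := Real.le_sqrt_of_sq_le (by norm_num; exact hg16')
      have h8 := (hpi (G / p) (by linarith)).2
      have h9 : ⌊G / p⌋₊ = g j / p := by rw [hG]; exact Nat.floor_div_eq_div _ _
      rw [h9] at h8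
      refine h8.trans ?_
      have h10 : Real.log G / 2 ≤ Real.log (G / p) := by
        rw [← Real.log_sqrt hG0.le]
        exact Real.log_le_log (by linarith) h5
      have h11 : G / p / Real.log (G / p) ≤ G / p / (Real.log G / 2) :=
        div_le_div_of_nonneg_left (by positivity) (by positivity) h10
      calc K * (G / p / Real.log (G / p)) ≤ K * (G / p / (Real.log G / 2)) := mul_le_mul_of_nonneg_left h11 hK.le
        _ = _ := by field_simp
    refine (Finset.sum_le_sum h4).trans ?_
    rw [← Finset.mul_sum]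
    apply mul_le_mul_of_nonneg_left _ (by positivity)
    rcases Nat.lt_or_ge (Nat.sqrt (g j)) (z j) with h5 | h5
    · rw [Finset.filter_eq_empty_iff.2, Finset.sum_empty]
      · exact hTj0
      · intro p hp
        have := (mem_PZ.1 hp).2
        omega
    · exact (sum_inv_le h5).trans (le_max_right _ _)
  have h4 : ((rough (z j) (g j)).card : ℝ) ≤ 1 + (G / Real.log G) * (1 + K / Real.log G + 2 * K * Tj) := by
    have e1 : G / Real.log G + K * (G / Real.log G ^ 2) + 2 * K * (G / Real.log G) * Tj =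
      (G / Real.log G) * (1 + K / Real.log G + 2 * K * Tj) := by
      field_simp
    linarith
  have h5 : 1 + (G / Real.log G) * (1 + K / Real.log G + 2 * K * Tj) =
      (Real.log j / Real.log G * (Real.log G / G) + Real.log j / Real.log G * (1 + K / Real.log G + 2 * K * Tj)) * (G / Real.log j) := by
    field_simp
  rw [h5] at h4
  exact h4.trans (mul_le_mul_of_nonneg_right hj.le (by positivity))

end Pool.Agent.N732.GV
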