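import Mathlib
import Pool.Agent.N732.GV.Lim
import Pool.Agent.R528.RM.Blocks
import Pool.Agent.N732.GS.Prob

set_option autoImplicit false
set_option linter.unusedSectionVars false

/-! # Long empty windows in models with a growing sieve -/

open MeasureTheory Filter Set
open scoped ENNReal Topology

namespace Pool.Agent.N732.GV

open Pool.Agent.R528.RM

variable {Ω : Type} {m0 : MeasurableSpace Ω} {μ : Measure Ω} [IsProbabilityMeasure μ]
  {ℱ : Filtration ℕ m0} {A : ℕ → Set Ω}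

/-- no chosen integer in `(t, t + g]` -/
def Emp (A : ℕ → Set Ω) (t g : ℕ) : Set Ω := {ω | ∀ r, t < r → r ≤ t + g → ω ∉ A r}

lemma Emp_succ (t g : ℕ) : Emp A t (g + 1) = Emp A t g \ A (t + g + 1) := by
  ext ω
  unfold Emp
  simp only [Set.mem_ofPred_eq, Set.mem_sdiff]
  constructor
  · intro h
    exact ⟨fun r h1 h2 => h r h1 (by omega), h _ (by omega) (by omega)⟩
  · rintro ⟨h1, h2⟩ r hr1 hr2
    rcases Nat.lt_or_ge (t + g) r with h3 | h3
    · rw [show r = t + g + 1 by omega]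
      exact h2
    · exact h1 r hr1 h3

lemma Emp_meas (hA : ∀ n, MeasurableSet[ℱ n] (A n)) (t g : ℕ) : MeasurableSet[ℱ (t + g)] (Emp A t g) := by
  induction g with
  | zero =>
    have : Emp A t 0 = univ := by
      ext ω
      unfold Emp
      simp only [Set.mem_ofPred_eq, mem_univ, iff_true]
      intro r h1 h2
      omega
    rw [this]
    exact @MeasurableSet.univ _ (ℱ (t + 0))
  | succ g ih =>
    rw [Emp_succ]
    exact MeasurableSet.diff (ℱ.mono (by omega) _ ih) (hA (t + g + 1))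

/-- the violations of the upper bound `u` -/
def VU (μ : Measure Ω) (ℱ : Filtration ℕ m0) (A : ℕ → Set Ω) (u : ℕ → ℝ) (n : ℕ) : Set Ω := {ω | u n < dens μ ℱ A n ω}

lemma VU_meas (u : ℕ → ℝ) (n : ℕ) : MeasurableSet[ℱ n] (VU μ ℱ A u n) := by
  have h1 : Measurable[ℱ n] (dens μ ℱ A n) := (dens_meas n).measurable
  exact h1 measurableSet_Ioi

lemma WV_last (V : ℕ → Set Ω) (t g : ℕ) : WV V t (g + 1) = WV V t g ∪ V (t + g) := by
  ext ω
  unfold WV
  simp only [Set.mem_ofPred_eq, mem_union]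
  constructor
  · rintro ⟨n, h1, h2, h3⟩
    rcases Nat.lt_or_ge n (t + g) with h4 | h4
    · exact Or.inl ⟨n, h1, h4, h3⟩
    · right
      rw [show t + g = n by omega]
      exact h3
  · rintro (⟨n, h1, h2, h3⟩ | h)
    · exact ⟨n, h1, by omega, h3⟩
    · exact ⟨t + g, by omega, by omega, h⟩

/-- lower bound for the probability of an empty window -/
lemma empty_lower (hA : ∀ n, MeasurableSet[ℱ n] (A n)) {u : ℕ → ℝ} (hu0 : ∀ n, 0 ≤ u n) (hu1 : ∀ n, u n ≤ 1) (t : ℕ)
    {C : Set Ω} (hC : MeasurableSet[ℱ t] C) (g : ℕ) :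
    (∏ i ∈ Finset.range g, (1 - u (t + i))) * μ.real C ≤ μ.real (C ∩ (Emp A t g ∪ WV (VU μ ℱ A u) t g)) := by
  induction g with
  | zero =>
    have : Emp A t 0 = univ := by
      ext ω
      unfold Emp
      simp only [Set.mem_ofPred_eq, mem_univ, iff_true]
      intro r h1 h2
      omega
    rw [this, univ_union, inter_univ]
    simp
  | succ g ih =>
    set B := C ∩ (Emp A t g ∪ WV (VU μ ℱ A u) t g) with hB
    have hBm : MeasurableSet[ℱ (t + g)] B :=
      MeasurableSet.inter (ℱ.mono (by omega) _ hC) (MeasurableSet.union (Emp_meas hA t g) (WV_meas (fun n => VU_meas u n) t g))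
    have hVm : MeasurableSet[ℱ (t + g)] (VU μ ℱ A u (t + g)) := VU_meas u (t + g)
    have h1 := upper_meas (μ := μ) hA (t + g) (B := B \ VU μ ℱ A u (t + g)) (hBm.diff hVm) (u := u (t + g))
      (fun ω hω => not_lt.1 hω.2)
    have h2 : B \ (A (t + g + 1) \ VU μ ℱ A u (t + g)) ⊆ C ∩ (Emp A t (g + 1) ∪ WV (VU μ ℱ A u) t (g + 1)) := by
      rintro ω ⟨⟨hωC, hω⟩, hω2⟩
      refine ⟨hωC, ?_⟩
      rw [Emp_succ, WV_last]
      rcases hω with hω | hω
      · by_cases h3 : ω ∈ A (t + g + 1)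
        · right; right
          by_contra h4
          exact hω2 ⟨h3, h4⟩
        · left
          exact ⟨hω, h3⟩
      · right; left; exact hω
    have hB0 : MeasurableSet B := ℱ.le _ _ hBm
    have hA0 : MeasurableSet (A (t + g + 1)) := ℱ.le _ _ (hA _)
    have hV0 : MeasurableSet (VU μ ℱ A u (t + g)) := ℱ.le _ _ hVm
    have h3 := measureReal_inter_add_sdiff (μ := μ) (s := B) (hA0.diff hV0)
    have h4 : B ∩ (A (t + g + 1) \ VU μ ℱ A u (t + g)) = (B \ VU μ ℱ A u (t + g)) ∩ A (t + g + 1) := by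
      ext ω
      simp only [mem_inter_iff, Set.mem_sdiff]
      tauto
    rw [h4] at h3
    have h5 : μ.real (B \ VU μ ℱ A u (t + g)) ≤ μ.real B := measureReal_mono sdiff_subset
    have h6 : μ.real (B \ (A (t + g + 1) \ VU μ ℱ A u (t + g))) ≤ μ.real (C ∩ (Emp A t (g + 1) ∪ WV (VU μ ℱ A u) t (g + 1))) :=
      measureReal_mono h2
    rw [Finset.prod_range_succ]
    have h7 : u (t + g) * μ.real (B \ VU μ ℱ A u (t + g)) ≤ u (t + g) * μ.real B := mul_le_mul_of_nonneg_left h5 (hu0 _)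
    have h8 : (1 - u (t + g)) * ((∏ i ∈ Finset.range g, (1 - u (t + i))) * μ.real C) ≤ (1 - u (t + g)) * μ.real B :=
      mul_le_mul_of_nonneg_left ih (by linarith [hu1 (t + g)])
    nlinarith

/-- finitely many trials -/
lemma trials {s : ℕ → ℕ} (hs : Monotone s) {D : ℕ → Set Ω} (hD : ∀ k, MeasurableSet[ℱ (s (k + 1))] (D k)) {p : ℝ} {n : ℕ}
    (hp : ∀ k, k < n → ∀ C, MeasurableSet[ℱ (s k)] C → p * μ.real C ≤ μ.real (C ∩ D k)) :
    μ.real {ω | ∀ k, k < n → ω ∉ D k} ≤ Real.exp (-(n * p)) := by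
  have key : ∀ m, m ≤ n → MeasurableSet[ℱ (s m)] {ω | ∀ k, k < m → ω ∉ D k} ∧
      μ.real {ω | ∀ k, k < m → ω ∉ D k} ≤ Real.exp (-(m * p)) := by
    intro m
    induction m with
    | zero =>
      intro _
      have : {ω : Ω | ∀ k, k < 0 → ω ∉ D k} = univ := by
        ext ω
        simp
      rw [this]
      exact ⟨@MeasurableSet.univ _ (ℱ (s 0)), by simp⟩
    | succ m ih =>
      intro hm
      obtain ⟨ih1, ih2⟩ := ih (by omega)
      have e : {ω | ∀ k, k < m + 1 → ω ∉ D k} = {ω | ∀ k, k < m → ω ∉ D k} \ D m := by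
        ext ω
        simp only [Set.mem_ofPred_eq, Set.mem_sdiff]
        constructor
        · intro h
          exact ⟨fun k hk => h k (by omega), h m (by omega)⟩
        · rintro ⟨h1, h2⟩ k hk
          rcases Nat.lt_or_ge k m with h3 | h3
          · exact h1 k h3
          · rw [show k = m by omega]; exact h2
      rw [e]
      refine ⟨(ℱ.mono (hs (by omega)) _ ih1).diff (hD m), ?_⟩
      have h1 := hp m (by omega) _ ih1
      have h2 := measureReal_inter_add_sdiff (μ := μ) (s := {ω | ∀ k, k < m → ω ∉ D k}) (ℱ.le _ _ (hD m))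
      have h3 : 0 ≤ μ.real {ω | ∀ k, k < m → ω ∉ D k} := measureReal_nonneg
      have h4 : 1 - p ≤ Real.exp (-p) := by
        have := Real.add_one_le_exp (-p)
        linarith
      have h5 : Real.exp (-((m + 1 : ℕ) * p)) = Real.exp (-p) * Real.exp (-(m * p)) := by
        rw [← Real.exp_add]
        congr 1
        push_cast
        ring
      rw [h5]
      calc _ ≤ (1 - p) * μ.real {ω | ∀ k, k < m → ω ∉ D k} := by linarith
        _ ≤ Real.exp (-p) * μ.real {ω | ∀ k, k < m → ω ∉ D k} := mul_le_mul_of_nonneg_right h4 h3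
        _ ≤ _ := mul_le_mul_of_nonneg_left ih2 (Real.exp_pos _).le
  exact (key n le_rfl).2

lemma pow_ge {U : ℝ} (h1 : U < 1) (N : ℕ) : Real.exp (-(N * (U / (1 - U)))) ≤ (1 - U) ^ N := by
  have h2 : Real.exp (-(U / (1 - U))) ≤ 1 - U := by
    rw [Real.exp_neg, inv_le_comm₀ (Real.exp_pos _) (by linarith)]
    have h3 : (1 - U)⁻¹ = U / (1 - U) + 1 := by
      have : 1 - U ≠ 0 := by linarith
      field_simp
      ring
    rw [h3]
    exact Real.add_one_le_exp _
  calc Real.exp (-(N * (U / (1 - U)))) = (Real.exp (-(U / (1 - U)))) ^ N := by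
        rw [← Real.exp_nat_mul]; congr 1; ring
    _ ≤ _ := pow_le_pow_left₀ (Real.exp_pos _).le h2 N

/-- the upper bounds for the conditional probabilities in the block `j` -/
noncomputable def uu (z : ℕ → ℕ) (δ : ℝ) (n : ℕ) : ℝ :=
  if (∀ p ∈ PZ (z (Nat.log 2 (n + 1))), ¬ p ∣ n + 1) then
    min 1 ((1 + δ) * MM (z (Nat.log 2 (n + 1))) / (Nat.log 2 (n + 1) * Real.log 2)) else 0

lemma uu_01 (z : ℕ → ℕ) {δ : ℝ} (hδ : 0 < δ) (n : ℕ) : 0 ≤ uu z δ n ∧ uu z δ n ≤ 1 := by
  unfold uu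
  split_ifs
  · have hM := MM_pos (z (Nat.log 2 (n + 1)))
    have hl2 : 0 < Real.log 2 := Real.log_pos (by norm_num)
    refine ⟨le_min zero_le_one (by positivity), min_le_left _ _⟩
  · exact ⟨le_rfl, zero_le_one⟩

/-- the product over a window which starts at a multiple of all small primes -/
lemma win_prod (z : ℕ → ℕ) (δ : ℝ) {j t g : ℕ} (ht : 2 ^ j ≤ t) (htg : t + g < 2 ^ (j + 1)) (hdvd : ∀ p ∈ PZ (z j), p ∣ t) :
    ∏ i ∈ Finset.range g, (1 - uu z δ (t + i)) = (1 - min 1 ((1 + δ) * MM (z j) / (j * Real.log 2))) ^ (rough (z j) g).card := by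
  have hlog : ∀ i ∈ Finset.range g, Nat.log 2 (t + i + 1) = j := by
    intro i hi
    have := Finset.mem_range.1 hi
    rw [Nat.log_eq_iff (Or.inr ⟨by norm_num, by omega⟩)]
    omega
  have h1 : ∏ i ∈ Finset.range g, (1 - uu z δ (t + i)) =
      ∏ i ∈ Finset.range g, (if (∀ p ∈ PZ (z j), ¬ p ∣ i + 1) then (1 - min 1 ((1 + δ) * MM (z j) / (j * Real.log 2))) else 1) := by
    refine Finset.prod_congr rfl fun i hi => ?_
    unfold uu
    rw [hlog i hi]
    have h2 : (∀ p ∈ PZ (z j), ¬ p ∣ t + i + 1) ↔ (∀ p ∈ PZ (z j), ¬ p ∣ i + 1) := by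
      refine forall₂_congr fun p hp => ?_
      rw [add_assoc, Nat.dvd_add_right (hdvd p hp)]
    by_cases h3 : ∀ p ∈ PZ (z j), ¬ p ∣ i + 1
    · rw [if_pos (h2.2 h3), if_pos h3]
    · rw [if_neg (fun h => h3 (h2.1 h)), if_neg h3, sub_zero]
  rw [h1, ← Finset.prod_filter, Finset.prod_const]
  congr 1
  unfold rough
  refine Finset.card_bij (fun i _ => i + 1) ?_ ?_ ?_
  · intro i hi
    rw [Finset.mem_filter, Finset.mem_range] at hi
    rw [Finset.mem_filter, Finset.mem_Icc]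
    exact ⟨by omega, hi.2⟩
  · intro a _ b _ h
    omega
  · intro r hr
    rw [Finset.mem_filter, Finset.mem_Icc] at hr
    refine ⟨r - 1, ?_, by omega⟩
    rw [Finset.mem_filter, Finset.mem_range, show r - 1 + 1 = r by omega]
    exact ⟨by omega, hr.2⟩

end Pool.Agent.N732.GV
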