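import Mathlib
import Pool.Agent.N732.GV.Win

set_option autoImplicit false
set_option linter.unusedSectionVars false

/-! # Long empty windows in models with a growing sieve: almost sure existence -/

open MeasureTheory Filter Set
open scoped ENNReal Topology

namespace Pool.Agent.N732.GV

open Pool.Agent.R528.RM

variable {Ω : Type} {m0 : MeasurableSpace Ω} {μ : Measure Ω} [IsProbabilityMeasure μ]
  {ℱ : Filtration ℕ m0} {A : ℕ → Set Ω}

/-- the length of the windows -/
noncomputable def gg (lam : ℝ) (j : ℕ) : ℕ := ⌈lam * Real.log 2 ^ 2 * ((j : ℝ) + 2) ^ 2⌉₊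

lemma gg_sq {lam : ℝ} (hlam : 0 < lam) : Tendsto (fun j : ℕ => (gg lam j : ℝ) / (j : ℝ) ^ 2) atTop (𝓝 (lam * Real.log 2 ^ 2)) := by
  have hl2 : 0 < Real.log 2 := Real.log_pos (by norm_num)
  have h1 : Tendsto (fun j : ℕ => 2 / (j : ℝ)) atTop (𝓝 0) := tendsto_const_nhds.div_atTop tendsto_natCast_atTop_atTop
  have h2 : Tendsto (fun j : ℕ => lam * Real.log 2 ^ 2 * (1 + 2 / (j : ℝ)) ^ 2) atTop (𝓝 (lam * Real.log 2 ^ 2)) := by
    have := ((h1.const_add 1).pow 2).const_mul (lam * Real.log 2 ^ 2)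
    simpa using this
  have h3 : Tendsto (fun j : ℕ => lam * Real.log 2 ^ 2 * (1 + 2 / (j : ℝ)) ^ 2 + 1 / (j : ℝ)) atTop (𝓝 (lam * Real.log 2 ^ 2)) := by
    have h4 : Tendsto (fun j : ℕ => 1 / (j : ℝ)) atTop (𝓝 0) := tendsto_const_nhds.div_atTop tendsto_natCast_atTop_atTop
    have := h2.add h4
    rwa [add_zero] at this
  refine tendsto_of_tendsto_of_tendsto_of_le_of_le' h2 h3 ?_ ?_
  · filter_upwards [eventually_ge_atTop 1] with j hj
    have hj0 : (0 : ℝ) < j := by exact_mod_cast hj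
    rw [le_div_iff₀ (by positivity)]
    have e : lam * Real.log 2 ^ 2 * (1 + 2 / (j : ℝ)) ^ 2 * (j : ℝ) ^ 2 = lam * Real.log 2 ^ 2 * ((j : ℝ) + 2) ^ 2 := by
      field_simp
    rw [e]
    exact Nat.le_ceil _
  · filter_upwards [eventually_ge_atTop 1] with j hj
    have hj0 : (1 : ℝ) ≤ j := by exact_mod_cast hj
    rw [div_le_iff₀ (by positivity)]
    have e : (lam * Real.log 2 ^ 2 * (1 + 2 / (j : ℝ)) ^ 2 + 1 / j) * (j : ℝ) ^ 2 = lam * Real.log 2 ^ 2 * ((j : ℝ) + 2) ^ 2 + j := by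
      field_simp
    rw [e]
    have := Nat.ceil_lt_add_one (show 0 ≤ lam * Real.log 2 ^ 2 * ((j : ℝ) + 2) ^ 2 by positivity)
    unfold gg
    linarith

lemma gg_log {lam : ℝ} (hlam : 0 < lam) : Tendsto (fun j : ℕ => Real.log (gg lam j) / Real.log j) atTop (𝓝 2) := by
  have hl2 : 0 < Real.log 2 := Real.log_pos (by norm_num)
  have h1 := gg_sq hlam
  have hpos : 0 < lam * Real.log 2 ^ 2 := by positivity
  have h2 := (h1.log hpos.ne').div_atTop tendsto_log
  have h3 := h2.add_const 2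
  rw [zero_add] at h3
  refine h3.congr' ?_
  filter_upwards [eventually_gt_atTop 1, h1.eventually (lt_mem_nhds hpos)] with j hj hj2
  have hj0 : (1 : ℝ) < j := by exact_mod_cast hj
  have hl : 0 < Real.log (j : ℝ) := Real.log_pos hj0
  have hg : (0 : ℝ) < gg lam j := by
    rw [lt_div_iff₀ (by positivity), zero_mul] at hj2
    exact hj2
  rw [Real.log_div hg.ne' (by positivity), Real.log_pow]
  field_simp
  push_cast
  ring

lemma gg_pos {lam : ℝ} (hlam : 0 < lam) (j : ℕ) : 0 < gg lam j := by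
  have hl2 : 0 < Real.log 2 := Real.log_pos (by norm_num)
  exact Nat.ceil_pos.2 (by positivity)

lemma prod_PZ_le (z : ℕ) : ∏ p ∈ PZ z, p ≤ 4 ^ z := by
  have h1 := primorial_le_four_pow z
  have h2 : ∏ p ∈ PZ z, p = primorial z := by
    unfold primorial PZ
    refine Finset.prod_congr ?_ fun _ _ => rfl
    ext p
    simp only [Finset.mem_filter, Finset.mem_Icc, Finset.mem_range]
    constructor
    · rintro ⟨h1, h2⟩; exact ⟨by omega, h2⟩
    · rintro ⟨h1, h2⟩; exact ⟨⟨h2.one_le, by omega⟩, h2⟩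
  rw [h2]
  exact h1

lemma prod_PZ_pos (z : ℕ) : 0 < ∏ p ∈ PZ z, p := Finset.prod_pos fun p hp => (mem_PZ.1 hp).1.pos

/-- the analytic part: choice of the parameters -/
lemma params (z : ℕ → ℕ) (hz0 : Tendsto (fun j : ℕ => (z j : ℝ) / j) atTop (𝓝 0))
    (hz1 : Tendsto (fun j : ℕ => Real.log (z j) / Real.log j) atTop (𝓝 1)) {lam : ℝ} (hlam : 0 < lam)
    (hlam2 : lam * Real.exp Real.eulerMascheroniConstant < 2) :
    ∃ δ η θ : ℝ, 0 < δ ∧ 0 < η ∧ θ + 2 * η = 1 ∧ ∀ᶠ j : ℕ in atTop,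
      Real.exp (-(θ * (j * Real.log 2))) ≤ (1 - min 1 ((1 + δ) * MM (z j) / (j * Real.log 2))) ^ (rough (z j) (gg lam j)).card ∧
      (((∏ p ∈ PZ (z j), p) * gg lam j : ℕ) : ℝ) ≤ Real.exp (η * (j * Real.log 2)) := by
  have hl2 : 0 < Real.log 2 := Real.log_pos (by norm_num)
  set E := Real.exp Real.eulerMascheroniConstant with hE
  have hE0 : 0 < E := Real.exp_pos _
  set a : ℝ := lam * E / 2 with ha
  have ha0 : 0 < a := by positivity
  have ha1 : a < 1 := by linarith
  set δ : ℝ := min 1 ((1 - a) / (10 * a)) with hδ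
  have hδ0 : 0 < δ := lt_min one_pos (div_pos (by linarith) (by positivity))
  have hδ1 : δ ≤ 1 := min_le_left _ _
  have hδa : a * (5 * δ) ≤ (1 - a) / 2 := by
    have h1 : δ ≤ (1 - a) / (10 * a) := min_le_right _ _
    rw [le_div_iff₀ (by positivity)] at h1
    linarith
  set θ : ℝ := (3 + a) / 4 with hθ
  set η : ℝ := (1 - θ) / 2 with hη
  have hη0 : 0 < η := by rw [hη, hθ]; linarith
  refine ⟨δ, η, θ, hδ0, hη0, by rw [hη]; ring, ?_⟩
  have hg2 := gg_sq hlam
  have hgl := gg_log hlam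
  have hMz := MM_comp one_pos hz1
  rw [mul_one, ← hE] at hMz
  have hlj : Tendsto (fun j : ℕ => Real.log j / (j : ℝ)) atTop (𝓝 0) := by
    have := Real.isLittleO_log_id_atTop.tendsto_div_nhds_zero
    exact this.comp tendsto_natCast_atTop_atTop
  set u : ℕ → ℝ := fun j => (1 + δ) * MM (z j) / (j * Real.log 2) with hu
  have hu_lim : Tendsto u atTop (𝓝 0) := by
    have h1 := (hMz.mul hlj).const_mul ((1 + δ) / Real.log 2)
    rw [mul_zero, mul_zero] at h1
    refine h1.congr' ?_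
    filter_upwards [tendsto_log.eventually_gt_atTop 0, eventually_gt_atTop 0] with j hj hj2
    have : (0 : ℝ) < j := by exact_mod_cast hj2
    simp only [hu]
    field_simp
  have hF : Tendsto (fun j : ℕ => (1 / 2 + δ) * ((gg lam j : ℝ) / (j : ℝ) ^ 2) * ((1 + δ) * (MM (z j) / Real.log j)) / Real.log 2 ^ 2 / (1 - u j))
      atTop (𝓝 ((1 / 2 + δ) * (lam * Real.log 2 ^ 2) * ((1 + δ) * E) / Real.log 2 ^ 2 / (1 - 0))) := by
    refine Tendsto.div ?_ (tendsto_const_nhds.sub hu_lim) (by norm_num)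
    exact ((hg2.const_mul _).mul (hMz.const_mul _)).div_const _
  have hFlim : (1 / 2 + δ) * (lam * Real.log 2 ^ 2) * ((1 + δ) * E) / Real.log 2 ^ 2 / (1 - 0) < θ := by
    have e1 : (1 / 2 + δ) * (lam * Real.log 2 ^ 2) * ((1 + δ) * E) / Real.log 2 ^ 2 / (1 - 0) = a * ((1 + 2 * δ) * (1 + δ)) := by
      rw [ha]
      field_simp
      ring
    rw [e1]
    have h2 : (1 + 2 * δ) * (1 + δ) ≤ 1 + 5 * δ := by nlinarith
    have h3 := mul_le_mul_of_nonneg_left h2 ha0.le
    rw [hθ]
    linarith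
  have hM : Tendsto (fun j : ℕ => ((z j : ℝ) / j) * Real.log 4 + (Real.log (gg lam j) / Real.log j) * (Real.log j / (j : ℝ))) atTop
      (𝓝 (0 * Real.log 4 + 2 * 0)) := (hz0.mul_const _).add (hgl.mul hlj)
  rw [zero_mul, mul_zero, add_zero] at hM
  filter_upwards [hF.eventually (gt_mem_nhds hFlim), hM.eventually (gt_mem_nhds (show (0 : ℝ) < η * Real.log 2 by positivity)),
    hu_lim.eventually (gt_mem_nhds one_pos), rough_asymp hz1 hgl hδ0, tendsto_log.eventually_gt_atTop 0, eventually_gt_atTop 0] with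
    j h1 h2 h3 h4 h5 h6
  have hj0 : (0 : ℝ) < j := by exact_mod_cast h6
  have hMp := MM_pos (z j)
  have hu0 : 0 ≤ u j := by
    simp only [hu]
    positivity
  constructor
  · have e1 : min 1 ((1 + δ) * MM (z j) / (j * Real.log 2)) = u j := min_eq_right h3.le
    rw [e1]
    refine le_trans ?_ (pow_ge h3 _)
    apply Real.exp_le_exp.2
    apply neg_le_neg
    have h7 : 0 ≤ u j / (1 - u j) := div_nonneg hu0 (by linarith)
    calc ((rough (z j) (gg lam j)).card : ℝ) * (u j / (1 - u j)) ≤ ((1 / 2 + δ) * (gg lam j / Real.log j)) * (u j / (1 - u j)) :=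
          mul_le_mul_of_nonneg_right h4 h7
      _ = ((1 / 2 + δ) * ((gg lam j : ℝ) / (j : ℝ) ^ 2) * ((1 + δ) * (MM (z j) / Real.log j)) / Real.log 2 ^ 2 / (1 - u j)) * (j * Real.log 2) := by
          have e2 : u j = (1 + δ) * MM (z j) / (j * Real.log 2) := rfl
          have h8 : 1 - u j ≠ 0 := by linarith
          have e3 : (1 / 2 + δ) * ((gg lam j : ℝ) / Real.log j) * (u j / (1 - u j)) =
            ((1 / 2 + δ) * ((gg lam j : ℝ) / Real.log j) * u j) / (1 - u j) := by ring
          have e4 : ((1 / 2 + δ) * ((gg lam j : ℝ) / (j : ℝ) ^ 2) * ((1 + δ) * (MM (z j) / Real.log j)) / Real.log 2 ^ 2 / (1 - u j)) * (j * Real.log 2) =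
            ((1 / 2 + δ) * ((gg lam j : ℝ) / (j : ℝ) ^ 2) * ((1 + δ) * (MM (z j) / Real.log j)) / Real.log 2 ^ 2 * (j * Real.log 2)) / (1 - u j) := by ring
          rw [e3, e4]
          congr 1
          rw [e2]
          field_simp
      _ ≤ θ * (j * Real.log 2) := mul_le_mul_of_nonneg_right h1.le (by positivity)
  · have hg0 : (0 : ℝ) < gg lam j := by exact_mod_cast gg_pos hlam j
    have hp0 : (0 : ℝ) < ((∏ p ∈ PZ (z j), p : ℕ) : ℝ) := by exact_mod_cast prod_PZ_pos (z j)
    rw [← Real.log_le_iff_le_exp (by rw [Nat.cast_mul]; positivity), Nat.cast_mul, Real.log_mul hp0.ne' hg0.ne']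
    have h7 : Real.log ((∏ p ∈ PZ (z j), p : ℕ) : ℝ) ≤ z j * Real.log 4 := by
      rw [← Real.log_pow]
      apply Real.log_le_log hp0
      exact_mod_cast prod_PZ_le (z j)
    have e1 : ((z j : ℝ) / j * Real.log 4 + Real.log (gg lam j) / Real.log j * (Real.log j / j)) * j = z j * Real.log 4 + Real.log (gg lam j) := by
      field_simp
    have h8 := mul_lt_mul_of_pos_right h2 hj0
    rw [e1] at h8
    linarith

/-- **long empty windows** in all dyadic blocks -/
theorem windows (hA : ∀ n, MeasurableSet[ℱ n] (A n)) (z : ℕ → ℕ) (hz0 : Tendsto (fun j : ℕ => (z j : ℝ) / j) atTop (𝓝 0))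
    (hz1 : Tendsto (fun j : ℕ => Real.log (z j) / Real.log j) atTop (𝓝 1))
    (hzero : ∀ᵐ ω ∂μ, ∀ n, ¬ (∀ p ∈ PZ (z (Nat.log 2 (n + 1))), ¬ p ∣ n + 1) → dens μ ℱ A n ω = 0)
    (hd : ∀ᵐ ω ∂μ, ∀ ε : ℝ, 0 < ε → ∀ᶠ n : ℕ in atTop, (∀ p ∈ PZ (z (Nat.log 2 (n + 1))), ¬ p ∣ n + 1) →
      dens μ ℱ A n ω * Real.log ((n : ℝ) + 1) ≤ (1 + ε) * MM (z (Nat.log 2 (n + 1))))
    {lam : ℝ} (hlam : 0 < lam) (hlam2 : lam * Real.exp Real.eulerMascheroniConstant < 2) :
    ∀ᵐ ω ∂μ, ∀ᶠ j : ℕ in atTop, ∃ t, 2 ^ j ≤ t ∧ t + gg lam j < 2 ^ (j + 1) ∧ ω ∈ Emp A t (gg lam j) := by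
  classical
  have hl2 : 0 < Real.log 2 := Real.log_pos (by norm_num)
  obtain ⟨δ, η, θ, hδ, hη, hθη, hpar⟩ := params z hz0 hz1 hlam hlam2
  set M : ℕ → ℕ := fun j => (∏ p ∈ PZ (z j), p) * gg lam j with hM
  have hMpos : ∀ j, 0 < M j := fun j => Nat.mul_pos (prod_PZ_pos _) (gg_pos hlam j)
  have hgM : ∀ j, gg lam j ≤ M j := fun j => Nat.le_mul_of_pos_left _ (prod_PZ_pos _)
  set q : ℕ → ℕ := fun j => 2 ^ j / M j with hq
  set nn : ℕ → ℕ := fun j => q j - 2 with hnn
  set s : ℕ → ℕ → ℕ := fun j k => (q j + 1 + k) * M j with hs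
  set D : ℕ → ℕ → Set Ω := fun j k => if k < nn j then Emp A (s j k) (gg lam j) ∪ WV (VU μ ℱ A (uu z δ)) (s j k) (gg lam j) else ∅ with hD
  have hsmono : ∀ j, Monotone (s j) := fun j a b hab => Nat.mul_le_mul_right _ (by omega)
  have hDm : ∀ j k, MeasurableSet[ℱ (s j (k + 1))] (D j k) := by
    intro j k
    simp only [hD]
    split_ifs
    · have h1 : s j k + gg lam j ≤ s j (k + 1) := by
        simp only [hs]
        have e : (q j + 1 + (k + 1)) * M j = (q j + 1 + k) * M j + M j := by ring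
        rw [e]
        have := hgM j
        omega
      exact MeasurableSet.union (ℱ.mono h1 _ (Emp_meas hA _ _)) (ℱ.mono h1 _ (WV_meas (fun n => VU_meas _ n) _ _))
    · exact @MeasurableSet.empty _ (ℱ (s j (k + 1)))
  have hs1 : ∀ j k, 2 ^ j ≤ s j k := by
    intro j k
    simp only [hs, hq]
    have h1 : 2 ^ j < (2 ^ j / M j + 1) * M j := by
      have := Nat.lt_mul_div_succ (2 ^ j) (hMpos j)
      rw [mul_comm] at this
      exact this
    have h2 : (2 ^ j / M j + 1) * M j ≤ (2 ^ j / M j + 1 + k) * M j := Nat.mul_le_mul_right _ (by omega)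
    omega
  have hs2 : ∀ j k, k < nn j → s j k + gg lam j < 2 ^ (j + 1) := by
    intro j k hk
    simp only [hnn] at hk
    have h1 : s j k + M j * 2 ≤ 2 * (q j * M j) := by
      simp only [hs]
      have h3 : q j + 1 + k + 2 ≤ 2 * q j := by omega
      have h4 := Nat.mul_le_mul_right (M j) h3
      nlinarith
    have h2 : q j * M j ≤ 2 ^ j := Nat.div_mul_le_self _ _
    have h3 := hgM j
    have h4 := hMpos j
    rw [pow_succ]
    omega
  have hbc : ∀ᵐ ω ∂μ, ∀ᶠ j : ℕ in atTop, ω ∉ {ω | ∀ k, k < nn j → ω ∉ D j k} := by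
    have hsum : Summable (fun j : ℕ => 2 * (Real.exp (-(η * Real.log 2))) ^ j) := by
      apply Summable.mul_left
      apply summable_geometric_of_lt_one (Real.exp_pos _).le
      rw [Real.exp_lt_one_iff]
      have : 0 < η * Real.log 2 := by positivity
      linarith
    refine bc_real hsum ?_
    have hlarge : ∀ᶠ j : ℕ in atTop, 6 ≤ Real.exp ((1 - η) * (j * Real.log 2)) := by
      have hη1 : 0 < 1 - η := by
        have : 0 < η := hη
        by_contra hcon
        -- θ is positive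
        have h1 : θ ≤ 0 := by linarith
        obtain ⟨j, hj, hj2⟩ := (hpar.and (eventually_gt_atTop 0)).exists
        have h2 := hj.1
        have hj0 : (0 : ℝ) < j := by exact_mod_cast hj2
        have h4 : 0 < MM (z j) := MM_pos _
        have h3 : (1 - min 1 ((1 + δ) * MM (z j) / (j * Real.log 2))) ^ (rough (z j) (gg lam j)).card ≤ 1 := by
          apply pow_le_one₀
          · linarith [min_le_left 1 ((1 + δ) * MM (z j) / (j * Real.log 2))]
          · have : 0 ≤ min 1 ((1 + δ) * MM (z j) / (j * Real.log 2)) := le_min zero_le_one (by positivity)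
            linarith
        have h5 : Real.exp (-(θ * (j * Real.log 2))) ≤ 1 := h2.trans h3
        rw [Real.exp_le_one_iff] at h5
        have h6 : 0 < j * Real.log 2 := by positivity
        have h7 : θ * (j * Real.log 2) ≥ 0 := by linarith
        have h8 : 0 ≤ θ := by
          by_contra h9
          push Not at h9
          have := mul_neg_of_neg_of_pos h9 h6
          linarith
        have h9 : η = 1 / 2 := by linarith
        linarith
      have h1 : Tendsto (fun j : ℕ => (1 - η) * ((j : ℝ) * Real.log 2)) atTop atTop :=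
        (tendsto_natCast_atTop_atTop.atTop_mul_const hl2).const_mul_atTop hη1
      exact (Real.tendsto_exp_atTop.comp h1).eventually_ge_atTop 6
    filter_upwards [hpar, hlarge] with j hj hj6
    have h1 := trials (μ := μ) (hsmono j) (hDm j) (p := Real.exp (-(θ * (j * Real.log 2)))) (n := nn j) (by
      intro k hk C hC
      simp only [hD, if_pos hk]
      have h2 := empty_lower (μ := μ) hA (u := uu z δ) (fun n => (uu_01 z hδ n).1) (fun n => (uu_01 z hδ n).2) (s j k) hC (gg lam j)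
      rw [win_prod z δ (hs1 j k) (hs2 j k hk) (fun p hp => by
        simp only [hs, hM]
        exact Dvd.dvd.mul_left (Dvd.dvd.mul_right (Finset.dvd_prod_of_mem _ hp) _) _)] at h2
      exact le_trans (mul_le_mul_of_nonneg_right hj.1 measureReal_nonneg) h2)
    refine h1.trans ?_
    set b : ℝ := j * Real.log 2 with hb
    have hMR : (0 : ℝ) < M j := by exact_mod_cast hMpos j
    have h2j : (2 : ℝ) ^ j = Real.exp b := by
      rw [hb, Real.exp_nat_mul, Real.exp_log (by norm_num)]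
    have h3 : Real.exp ((1 - η) * b) ≤ (2 : ℝ) ^ j / M j := by
      rw [le_div_iff₀ hMR, h2j]
      calc Real.exp ((1 - η) * b) * M j ≤ Real.exp ((1 - η) * b) * Real.exp (η * b) :=
            mul_le_mul_of_nonneg_left hj.2 (Real.exp_pos _).le
        _ = Real.exp b := by rw [← Real.exp_add]; congr 1; ring
    have h4 : (2 : ℝ) ^ j / M j - 1 ≤ q j := by
      have h5 : 2 ^ j < (q j + 1) * M j := by
        have := Nat.lt_mul_div_succ (2 ^ j) (hMpos j)
        rw [mul_comm] at this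
        exact this
      have h6 : (2 : ℝ) ^ j < ((q j : ℝ) + 1) * M j := by exact_mod_cast h5
      have h7 : (2 : ℝ) ^ j / M j < (q j : ℝ) + 1 := by rwa [div_lt_iff₀ hMR]
      linarith
    have h5 : (q j : ℝ) - 2 ≤ nn j := by
      simp only [hnn]
      have : q j ≤ (q j - 2) + 2 := by omega
      have h6 : (q j : ℝ) ≤ ((q j - 2 : ℕ) : ℝ) + 2 := by exact_mod_cast this
      linarith
    have h6 : Real.exp ((1 - η) * b) / 2 ≤ nn j := by linarith
    have h7 : Real.exp (η * b) / 2 ≤ nn j * Real.exp (-(θ * b)) := by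
      calc Real.exp (η * b) / 2 = Real.exp ((1 - η) * b) / 2 * Real.exp (-(θ * b)) := by
            rw [div_mul_eq_mul_div, ← Real.exp_add]
            congr 2
            have : θ = 1 - 2 * η := by linarith
            rw [this]
            ring
        _ ≤ _ := mul_le_mul_of_nonneg_right h6 (Real.exp_pos _).le
    have h8 : Real.exp (-(nn j * Real.exp (-(θ * b)))) ≤ Real.exp (-(Real.exp (η * b) / 2)) := Real.exp_le_exp.2 (by linarith)
    have h9 : Real.exp (-(Real.exp (η * b) / 2)) ≤ 2 * Real.exp (-(η * b)) := by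
      have h10 : Real.exp (η * b) / 2 ≤ Real.exp (Real.exp (η * b) / 2) := by
        have := Real.add_one_le_exp (Real.exp (η * b) / 2)
        linarith
      rw [Real.exp_neg, Real.exp_neg]
      have h11 : (Real.exp (Real.exp (η * b) / 2))⁻¹ ≤ (Real.exp (η * b) / 2)⁻¹ := inv_anti₀ (by positivity) h10
      refine h11.trans (le_of_eq ?_)
      rw [inv_div]
      ring
    have h10 : (Real.exp (-(η * Real.log 2))) ^ j = Real.exp (-(η * b)) := by
      rw [← Real.exp_nat_mul]
      congr 1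
      rw [hb]
      ring
    rw [h10]
    exact h8.trans h9
  have h01 : ∀ᵐ ω ∂μ, ∀ n, 0 ≤ dens μ ℱ A n ω ∧ dens μ ℱ A n ω ≤ 1 := ae_all_iff.2 fun n => dens01 hA n
  filter_upwards [hbc, hzero, hd, h01] with ω hω1 hω2 hω3 hω4
  obtain ⟨n₀, hn₀⟩ := eventually_atTop.1 ((hω3 δ hδ).and (eventually_ge_atTop 4))
  have hviol : ∀ n, n₀ ≤ n → ω ∉ VU μ ℱ A (uu z δ) n := by
    intro n hn hω
    obtain ⟨h1, h2⟩ := hn₀ n hn
    have h3 : uu z δ n < dens μ ℱ A n ω := hω
    unfold uu at h3
    split_ifs at h3 with h4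
    · have h5 := h1 h4
      set j := Nat.log 2 (n + 1) with hj
      have hj1 : 1 ≤ j := by
        rw [hj]
        exact Nat.log_pos (by norm_num) (by omega)
      have hj0 : (0 : ℝ) < j := by exact_mod_cast hj1
      have hlogn : (j : ℝ) * Real.log 2 ≤ Real.log ((n : ℝ) + 1) := by
        have h5 : 2 ^ j ≤ n + 1 := Nat.pow_log_le_self 2 (by omega)
        have h6 : (2 : ℝ) ^ j ≤ (n : ℝ) + 1 := by exact_mod_cast h5
        have h7 := Real.log_le_log (by positivity) h6
        rwa [Real.log_pow] at h7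
      have hb0 : 0 < (j : ℝ) * Real.log 2 := by positivity
      have h6 : dens μ ℱ A n ω ≤ (1 + δ) * MM (z j) / (j * Real.log 2) := by
        rw [le_div_iff₀ hb0]
        refine le_trans ?_ h5
        exact mul_le_mul_of_nonneg_left hlogn (hω4 n).1
      have h7 := le_min (hω4 n).2 h6
      linarith
    · have h5 := hω2 n h4
      linarith
  filter_upwards [hω1, eventually_ge_atTop n₀] with j hj hjn
  simp only [not_forall, not_not] at hj
  obtain ⟨k, hk, hω⟩ := hj
  refine ⟨s j k, hs1 j k, hs2 j k hk, ?_⟩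
  simp only [hD, if_pos hk] at hω
  rcases hω with h | h
  · exact h
  · exfalso
    obtain ⟨n, h1, h2, h3⟩ := h
    refine hviol n ?_ h3
    have := hs1 j k
    have : j < 2 ^ j := Nat.lt_two_pow_self
    omega

end Pool.Agent.N732.GV
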