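import Mathlib
import Pool.Agent.N732.GV.Main
import Pool.Agent.N732.GS.Count

set_option autoImplicit false
set_option linter.unusedSectionVars false

/-! # Record gaps and first occurrences -/

open MeasureTheory Filter Set
open scoped ENNReal Topology

namespace Pool.Agent.N732.GV

open Pool.Agent.R528.RM Pool.Agent.N732.GS

lemma sing_zero : sing {0} = 1 := by
  unfold sing
  have h : (fun p : Nat.Primes => lfac {0} p) = fun _ => 1 := by
    funext p
    unfold lfac occ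
    have hp := p.2
    have h1 := den_pos hp 1
    simp only [Finset.image_singleton, Finset.card_singleton]
    rw [pow_one] at h1 ⊢
    push_cast
    exact div_self h1.ne'
  rw [h, tprod_one]

/-- every dyadic block contains a chosen integer -/
lemma dyadic_mem {S : Set ℕ} (h : ∀ ε : ℝ, 0 < ε → ∀ᶠ x : ℕ in atTop, |(tupCount S {0} x : ℝ) * (Real.log x ^ 1 / x) - 1| ≤ ε) :
    ∀ᶠ j : ℕ in atTop, ∃ q ∈ S, 2 ^ j < q ∧ q ≤ 2 ^ (j + 1) := by
  have h1 := h (1 / 10) (by norm_num)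
  have hp : Tendsto (fun j : ℕ => 2 ^ j) atTop atTop := tendsto_pow_atTop_atTop_of_one_lt (by norm_num)
  filter_upwards [hp.eventually h1, (hp.comp (tendsto_add_atTop_nat 1)).eventually h1, eventually_ge_atTop 3] with j h2 h3 hj
  by_contra hcon
  push Not at hcon
  have e1 : tupCount S {0} (2 ^ (j + 1)) = tupCount S {0} (2 ^ j) := by
    unfold tupCount
    congr 1
    ext n
    simp only [Finset.mem_singleton, forall_eq, add_zero, Set.mem_ofPred_eq]
    constructor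
    · rintro ⟨g1, g2, g3⟩
      refine ⟨g1, ?_, g3⟩
      by_contra hc
      push Not at hc
      have := hcon n g3 hc
      omega
    · rintro ⟨g1, g2, g3⟩
      refine ⟨g1, g2.trans (Nat.pow_le_pow_right (by norm_num) (by omega)), g3⟩
  simp only [Function.comp_apply] at h3
  rw [e1] at h3
  set N : ℝ := (tupCount S {0} (2 ^ j) : ℝ)
  have hl2 : 0 < Real.log 2 := Real.log_pos (by norm_num)
  have hj' : (3 : ℝ) ≤ j := by exact_mod_cast hj
  push_cast at h2 h3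
  rw [pow_one, Real.log_pow] at h2 h3
  push_cast at h2 h3
  have g2 := (abs_le.1 h2).2
  have g3 := (abs_le.1 h3).1
  have hp0 : (0 : ℝ) < 2 ^ j := by positivity
  rw [pow_succ] at g3
  have g4 : 9 / 10 * (2 ^ j * 2) ≤ N * (((j : ℝ) + 1) * Real.log 2) := by
    have : 9 / 10 ≤ N * (((j : ℝ) + 1) * Real.log 2 / (2 ^ j * 2)) := by linarith
    rw [mul_div_assoc', le_div_iff₀ (by positivity)] at this
    exact this
  have g5 : N * ((j : ℝ) * Real.log 2) ≤ 11 / 10 * 2 ^ j := by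
    have : N * ((j : ℝ) * Real.log 2 / 2 ^ j) ≤ 11 / 10 := by linarith
    rw [mul_div_assoc', div_le_iff₀ (by positivity)] at this
    exact this
  have hN0 : 0 ≤ N := Nat.cast_nonneg _
  have g6 : N * (((j : ℝ) + 1) * Real.log 2) ≤ 4 / 3 * (N * ((j : ℝ) * Real.log 2)) := by
    have : (j : ℝ) + 1 ≤ 4 / 3 * j := by linarith
    have h7 := mul_le_mul_of_nonneg_left this (show 0 ≤ N * Real.log 2 by positivity)
    nlinarith
  nlinarith

/-- a gap around each empty window -/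
lemma gap_of_window {S : Set ℕ} {lam : ℝ}
    (h1 : ∀ᶠ j : ℕ in atTop, ∃ t, 2 ^ j ≤ t ∧ t + gg lam j < 2 ^ (j + 1) ∧ ∀ r, t < r → r ≤ t + gg lam j → r ∉ S)
    (h2 : ∀ᶠ j : ℕ in atTop, ∃ q ∈ S, 2 ^ j < q ∧ q ≤ 2 ^ (j + 1)) :
    ∀ᶠ j : ℕ in atTop, ∃ p ∈ S, ∃ q ∈ S, p < 2 ^ (j + 1) ∧ q ≤ 2 ^ (j + 2) ∧ p + gg lam j < q ∧ ∀ r, p < r → r < q → r ∉ S := by
  classical
  obtain ⟨J, hJ⟩ := eventually_atTop.1 (h1.and h2)
  filter_upwards [eventually_ge_atTop (J + 1)] with j hj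
  obtain ⟨⟨t, ht1, ht2, ht3⟩, _⟩ := hJ j (by omega)
  obtain ⟨_, p₀, hp₀, hp₁, hp₂⟩ := hJ (j - 1) (by omega)
  obtain ⟨_, q₀, hq₀, hq₁, hq₂⟩ := hJ (j + 1) (by omega)
  rw [show j - 1 + 1 = j by omega] at hp₂
  -- the last element up to t
  set F := (Finset.range (t + 1)).filter (· ∈ S) with hF
  have hFne : F.Nonempty := ⟨p₀, Finset.mem_filter.2 ⟨Finset.mem_range.2 (by omega), hp₀⟩⟩
  obtain ⟨hpm, hpmax⟩ : F.max' hFne ∈ F ∧ ∀ b ∈ F, b ≤ F.max' hFne := ⟨F.max'_mem hFne, fun b hb => F.le_max' b hb⟩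
  set p := F.max' hFne
  rw [hF, Finset.mem_filter, Finset.mem_range] at hpm
  have hex : ∃ q, q ∈ S ∧ t < q := ⟨q₀, hq₀, by
    have : 2 ^ (j + 1) < q₀ := hq₁
    omega⟩
  obtain ⟨hqS, hqt⟩ := Nat.find_spec hex
  set q := Nat.find hex
  have hqle : q ≤ q₀ := Nat.find_min' hex ⟨hq₀, by omega⟩
  refine ⟨p, hpm.2, q, hqS, by omega, hqle.trans hq₂, ?_, ?_⟩
  · have : t + gg lam j < q := by
      by_contra hcon
      exact ht3 q hqt (by omega) hqS
    omega
  · intro r hr1 hr2 hrS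
    rcases Nat.lt_or_ge t r with h3 | h3
    · exact Nat.find_min hex hr2 ⟨hrS, h3⟩
    · have := hpmax r (by rw [hF, Finset.mem_filter, Finset.mem_range]; exact ⟨by omega, hrS⟩)
      omega

lemma gg_mono {lam : ℝ} (hlam : 0 < lam) : Monotone (gg lam) := by
  intro a b hab
  unfold gg
  apply Nat.ceil_le_ceil
  have h1 : (a : ℝ) ≤ b := by exact_mod_cast hab
  have : ((a : ℝ) + 2) ^ 2 ≤ ((b : ℝ) + 2) ^ 2 := pow_le_pow_left₀ (by positivity) (by linarith) 2
  exact mul_le_mul_of_nonneg_left this (by positivity)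

lemma gg_tendsto {lam : ℝ} (hlam : 0 < lam) : Tendsto (gg lam) atTop atTop :=
  (tendsto_nat_of_log (by norm_num) (gg_log hlam)).2

/-- the members of `S` whose `g` immediate predecessors are outside `S`, after an earlier member -/
def afterRun (S : Set ℕ) (g : ℕ) : Set ℕ := {q | q ∈ S ∧ ∃ p ∈ S, p + g < q ∧ ∀ r, p < r → r < q → r ∉ S}

/-- first occurrences -/
lemma first_occ {S : Set ℕ} {lam : ℝ} (hlam : 0 < lam)
    (h : ∀ᶠ j : ℕ in atTop, ∃ p ∈ S, ∃ q ∈ S, p < 2 ^ (j + 1) ∧ q ≤ 2 ^ (j + 2) ∧ p + gg lam j < q ∧ ∀ r, p < r → r < q → r ∉ S)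
    {c : ℝ} (hc : 1 / √lam < c) :
    (∀ g, (afterRun S g).Nonempty) ∧ ∀ᶠ g : ℕ in atTop, Real.log (sInf (afterRun S g) : ℕ) / √(g : ℝ) ≤ c := by
  classical
  obtain ⟨J, hJ⟩ := eventually_atTop.1 h
  have hmem : ∀ g j, J ≤ j → g ≤ gg lam j → ∃ q ∈ afterRun S g, q ≤ 2 ^ (j + 2) := by
    intro g j hj hg
    obtain ⟨p, hp, q, hq, h1, h2, h3, h4⟩ := hJ j hj
    exact ⟨q, ⟨hq, p, hp, by omega, h4⟩, h2⟩
  have hex : ∀ g, ∃ j, g ≤ gg lam j := fun g => ((gg_tendsto hlam).eventually_ge_atTop g).exists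
  refine ⟨fun g => ?_, ?_⟩
  · obtain ⟨j, hj⟩ := hex g
    obtain ⟨q, hq, _⟩ := hmem g (max J j) (le_max_left _ _) (hj.trans (gg_mono hlam (le_max_right _ _)))
    exact ⟨q, hq⟩
  · have hs : 0 < √lam := Real.sqrt_pos.2 hlam
    have hl2 : 0 < Real.log 2 := Real.log_pos (by norm_num)
    -- large j
    have hratio : ∀ᶠ j : ℕ in atTop, ((j : ℝ) + 2) / (√lam * ((j : ℝ) + 1)) ≤ c := by
      have h1 : Tendsto (fun j : ℕ => 1 / √lam * (1 + 1 / ((j : ℝ) + 1))) atTop (𝓝 (1 / √lam * (1 + 0))) :=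
        (tendsto_const_nhds.add (tendsto_one_div_add_atTop_nhds_zero_nat)).const_mul _
      rw [add_zero, mul_one] at h1
      filter_upwards [h1.eventually (gt_mem_nhds hc)] with j hj
      have hj1 : (0 : ℝ) < (j : ℝ) + 1 := by positivity
      refine le_trans (le_of_eq ?_) hj.le
      field_simp
      ring
    obtain ⟨J₂, hJ₂⟩ := eventually_atTop.1 hratio
    set K := J + J₂ + 1 with hK
    filter_upwards [eventually_gt_atTop (gg lam K)] with g hg
    set j := Nat.find (hex g) with hjd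
    have hj1 : g ≤ gg lam j := Nat.find_spec (hex g)
    have hjK : K < j := by
      by_contra hcon
      push Not at hcon
      have := gg_mono hlam hcon
      omega
    have hj2 : gg lam (j - 1) < g := by
      have := Nat.find_min (hex g) (show j - 1 < j by omega)
      omega
    obtain ⟨q, hq, hq2⟩ := hmem g j (by omega) hj1
    have h1 : sInf (afterRun S g) ≤ q := Nat.sInf_le hq
    have h2 : Real.log (sInf (afterRun S g) : ℕ) ≤ ((j : ℝ) + 2) * Real.log 2 := by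
      rcases Nat.eq_zero_or_pos (sInf (afterRun S g)) with h3 | h3
      · rw [h3, Nat.cast_zero, Real.log_zero]
        positivity
      · have h4 : ((sInf (afterRun S g) : ℕ) : ℝ) ≤ 2 ^ (j + 2) := by exact_mod_cast h1.trans hq2
        have h5 := Real.log_le_log (by exact_mod_cast h3) h4
        rw [Real.log_pow] at h5
        push_cast at h5
        exact h5
    have h3 : √lam * Real.log 2 * ((j : ℝ) + 1) ≤ √(g : ℝ) := by
      apply Real.le_sqrt_of_sq_le
      have h4 : lam * Real.log 2 ^ 2 * (((j - 1 : ℕ) : ℝ) + 2) ^ 2 ≤ gg lam (j - 1) := Nat.le_ceil _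
      have h5 : ((j - 1 : ℕ) : ℝ) = j - 1 := by
        rw [Nat.cast_sub (by omega)]
        simp
      rw [h5] at h4
      have h6 : (gg lam (j - 1) : ℝ) ≤ g := by exact_mod_cast hj2.le
      have h7 : (√lam * Real.log 2 * ((j : ℝ) + 1)) ^ 2 = lam * Real.log 2 ^ 2 * ((j : ℝ) - 1 + 2) ^ 2 := by
        rw [mul_pow, mul_pow, Real.sq_sqrt hlam.le]
        ring
      rw [h7]
      linarith
    have hj0 : (0 : ℝ) < (j : ℝ) + 1 := by positivity
    have h4 : 0 < √lam * Real.log 2 * ((j : ℝ) + 1) := by positivity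
    have h5 := hJ₂ j (by omega)
    calc Real.log (sInf (afterRun S g) : ℕ) / √(g : ℝ) ≤ ((j : ℝ) + 2) * Real.log 2 / √(g : ℝ) :=
          div_le_div_of_nonneg_right h2 (Real.sqrt_nonneg _)
      _ ≤ ((j : ℝ) + 2) * Real.log 2 / (√lam * Real.log 2 * ((j : ℝ) + 1)) :=
          div_le_div_of_nonneg_left (by positivity) h4 h3
      _ = ((j : ℝ) + 2) / (√lam * ((j : ℝ) + 1)) := by field_simp
      _ ≤ c := h5

/-- record gaps -/
lemma record {S : Set ℕ} {lam : ℝ} (hlam : 0 < lam)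
    (h : ∀ᶠ j : ℕ in atTop, ∃ p ∈ S, ∃ q ∈ S, p < 2 ^ (j + 1) ∧ q ≤ 2 ^ (j + 2) ∧ p + gg lam j < q ∧ ∀ r, p < r → r < q → r ∉ S) :
    ∀ᶠ x : ℕ in atTop, ∃ p ∈ S, ∃ q ∈ S, p ≤ x ∧ p < q ∧ (∀ r, p < r → r < q → r ∉ S) ∧ lam * Real.log x ^ 2 < (q : ℝ) - p := by
  obtain ⟨J, hJ⟩ := eventually_atTop.1 h
  filter_upwards [eventually_ge_atTop (2 ^ (J + 1))] with x hx
  have hx0 : x ≠ 0 := by
    have : 0 < 2 ^ (J + 1) := by positivity
    omega
  have hlog : J + 1 ≤ Nat.log 2 x := Nat.le_log_of_pow_le (by norm_num) hx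
  set j := Nat.log 2 x - 1 with hj
  obtain ⟨p, hp, q, hq, h1, h2, h3, h4⟩ := hJ j (by omega)
  have e1 : j + 1 = Nat.log 2 x := by omega
  have h5 : 2 ^ (j + 1) ≤ x := by rw [e1]; exact Nat.pow_log_le_self 2 hx0
  have h6 : x < 2 ^ (j + 2) := by
    have := Nat.lt_pow_succ_log_self (show 1 < 2 by norm_num) x
    rwa [← e1] at this
  refine ⟨p, hp, q, hq, by omega, by omega, h4, ?_⟩
  have hxR : (0 : ℝ) < x := by exact_mod_cast Nat.pos_of_ne_zero hx0
  have h7 : Real.log x ≤ ((j : ℝ) + 2) * Real.log 2 := by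
    have h8 : (x : ℝ) ≤ 2 ^ (j + 2) := by exact_mod_cast h6.le
    have h9 := Real.log_le_log hxR h8
    rw [Real.log_pow] at h9
    push_cast at h9
    exact h9
  have h8 : lam * Real.log 2 ^ 2 * ((j : ℝ) + 2) ^ 2 ≤ gg lam j := Nat.le_ceil _
  have h9 : (p : ℝ) + gg lam j < q := by exact_mod_cast h3
  have h10 : Real.log x ^ 2 ≤ (((j : ℝ) + 2) * Real.log 2) ^ 2 := pow_le_pow_left₀ (Real.log_natCast_nonneg x) h7 2
  have h11 := mul_le_mul_of_nonneg_left h10 hlam.le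
  nlinarith

end Pool.Agent.N732.GV
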